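import Pool.Agent.Q59.MC.Stm

/-!
# Project MC, job DET: detection by parity and induction on the order
-/

namespace Pool.Agent.Q129.MC

open Finset Pool.Agent.H916R2 Pool.Agent.Q59.FS Pool.Agent.Q59.RL Pool.Agent.Q59.MC

section Par

variable {G : Type*} [CommGroup G] [Fintype G]

lemma even_of_inv {K : Subgroup G} (hK : Even (Nat.card K)) {f : G → ℤ} (hf : Inv K f) :
    Even (∑ u, f u) := by
  classical
  obtain ⟨κ, hκ⟩ := exists_prime_orderOf_dvd_card' (G := K) 2 hK.two_dvd
  have h2 : (κ : G) * κ = 1 := by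
    have h3 := pow_orderOf_eq_one κ
    rw [hκ, pow_two] at h3
    have := congrArg (fun y : K => (y : G)) h3
    simpa using this
  have h1 : (κ : G) ≠ 1 := by
    intro h
    have h3 : κ = 1 := Subtype.ext h
    rw [h3, orderOf_one] at hκ
    omega
  rw [← ZMod.intCast_eq_zero_iff_even, Int.cast_sum]
  refine sum_involution (fun u _ => u * (κ : G)) ?_ ?_ (fun _ _ => mem_univ _) ?_
  · intro u _
    rw [hf κ κ.2 u]
    have : ((f u : ZMod 2)) + (f u : ZMod 2) = 2 * (f u : ZMod 2) := by ring
    rw [this, show (2 : ZMod 2) = 0 from by decide, zero_mul]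
  · intro u _ _ h
    exact h1 (mul_eq_left.mp h)
  · intro u _
    rw [mul_assoc, h2, mul_one]

lemma even_of_dec : ∀ (P : List (Subgroup G)), (∀ K ∈ P, Even (Nat.card K)) →
    ∀ {f : G → ℤ}, Dec P f → Even (∑ u, f u) := by
  intro P
  induction P with
  | nil =>
    intro _ f hf
    have : ∑ u, f u = 0 := sum_eq_zero fun u _ => hf u
    rw [this]
    exact Even.zero
  | cons K P ih =>
    intro hP f hf
    obtain ⟨α, h1, h2⟩ := hf
    have h3 := ih (fun K' hK' => hP K' (List.mem_cons_of_mem _ hK')) h2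
    have h4 := even_of_inv (hP K List.mem_cons_self) h1
    have h5 : ∑ u, f u = ∑ u, (f u - α u) + ∑ u, α u := by
      rw [← sum_add_distrib]
      exact sum_congr rfl fun u _ => by ring
    rw [h5]
    exact h3.add h4

end Par

lemma even_KL {d : ℕ} [NeZero d] (hd : Gd d) : ∀ K ∈ PL d, Even (Nat.card K) := by
  intro K hK
  obtain ⟨p, hp, rfl⟩ := List.mem_map.mp hK
  have hp' := mem_toList.mp hp
  have hpp := Nat.prime_of_mem_primeFactors hp'
  obtain ⟨d', hd'⟩ := Nat.dvd_of_mem_primeFactors hp'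
  rw [KL_eq_KK hpp.pos hd'.symm]
  by_cases h2 : p = 2
  · subst h2
    rw [card_KK_dvd Nat.prime_two hd'.symm]
    · exact even_two
    · have := hd.2.2
      omega
  · rw [card_KK_not_dvd hpp hd'.symm]
    · have := hpp.eq_two_or_odd
      rw [Nat.even_iff]
      omega
    · intro h
      apply hd.1 p hpp h2
      rw [hd']
      exact Nat.mul_dvd_mul_left p h

lemma even_of_tr {d : ℕ} [NeZero d] (hd : Gd d) {X : (ZMod d)ˣ → ℤ}
    (h : Tr (-1 : (ZMod d)ˣ) 1 ⊥ (PL d) X) : Even (∑ u, X u) := by
  obtain ⟨i, z, hi, _, _, hX⟩ := h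
  have h1 := even_of_dec (PL d) (even_KL hd) (dec_of_II (ind_PL d) hi)
  have h2 : ∑ u : (ZMod d)ˣ, z (-1 * u) = ∑ u, z u :=
    Equiv.sum_comp (Equiv.mulLeft (-1 : (ZMod d)ˣ)) z
  have h3 : ∑ u, X u = ∑ u, i u + 2 * ∑ u, z u := by
    calc ∑ u, X u = ∑ u, (i u + (z u + z (-1 * u))) := sum_congr rfl fun u _ => by rw [hX u, one_mul]
      _ = _ := by
        rw [sum_add_distrib, sum_add_distrib, h2]
        ring
  rw [h3]
  exact h1.add (even_two_mul _)

theorem det : S_Det := by
  classical
  intro m _ Q _ c hc hx D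
  induction D with
  | zero => exact TD_zero hc
  | succ D ih =>
    by_cases hG : GG m (D + 1)
    · obtain ⟨x', hr', ht', h0', hodd⟩ := hx (D + 1) hG
      obtain ⟨R, hR0⟩ := hG.1
      have hR : R * (D + 1) = m := by rw [hR0, mul_comm]
      have red : ∀ x : ZMod m → ℤ, Rel x → (∀ a, od x a ≠ 0 → addOrderOf a ≤ D + 1) →
          Tr (-1 : (ZMod (D + 1))ˣ) 1 ⊥ (PL (D + 1)) (fun u => x (iota R (u : ZMod (D + 1)))) →
          ∑ a, x a • c a = 0 := by
        intro x hx hx' hT
        obtain ⟨x'', h1, h2⟩ := descend hR hx' hT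
        have h3 : ∑ a, x a • c a ∈ TD c D :=
          ⟨x'', rel_of_eq hx h2, fun a ha => Nat.lt_succ_iff.mp (h1 a ha), h2 Q c hc⟩
        rw [ih, AddSubgroup.mem_bot] at h3
        exact h3
      have hno : ¬ Tr (-1 : (ZMod (D + 1))ˣ) 1 ⊥ (PL (D + 1))
          (fun u => x' (iota R (u : ZMod (D + 1)))) := by
        intro hT
        have h1 := even_of_tr hG.2.2.1 hT
        rw [sum_order hR] at hodd
        exact (Int.not_even_iff_odd.mpr hodd) h1
      rw [eq_bot_iff]
      rintro q ⟨x, hxr, hxt, rfl⟩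
      rw [AddSubgroup.mem_bot]
      obtain ⟨c1, _⟩ := classes (d := D + 1)
      rcases c1 ⟨hG.2.2.1, hG.2.2.2⟩ _ _ (cy_of_rel hR hxr hxt) (cy_of_rel hR hr' ht') with h | h | h
      · exact red x hxr hxt h
      · exact absurd h hno
      · have hsub : ∑ a, x a • c a - ∑ a, x' a • c a = ∑ a, (x a - x' a) • c a := by
          simp only [sub_smul]
          rw [sum_sub_distrib]
        have hsub' : ∀ a, od (fun a => x a - x' a) a ≠ 0 → addOrderOf a ≤ D + 1 := by
          intro a ha
          by_contra hcon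
          apply ha
          have h1 : od x a = 0 := by
            by_contra h
            exact hcon (hxt a h)
          have h2 : od x' a = 0 := by
            by_contra h
            exact hcon (ht' a h)
          unfold od at h1 h2 ⊢
          linarith
        have h3 := red _ (rel_sub hxr hr') hsub' h
        rw [← hsub, h0', sub_zero] at h3
        exact h3
    · rw [(TD_succ hc D).1 hG, ih]

end Pool.Agent.Q129.MC
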